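import Mathlib
import Pool.Agent.W5h37.Miy.Final

/-!
# The shuffled Pythagorean equation: the exceptional pairs are few

For coprime `f > g ≥ 1` of opposite parity consider `(f² + g²)^x + (2fg)^y = (f² - g²)^z` in positive
integers. Call `(f, g)` exceptional if there is a solution other than `(x, y, z) = (1, 1, 2)` for
`f = g + 1` (the conjecture says that no pair is exceptional). We prove that at most
`C N^(2/3) (log N)^K` pairs with `f ≤ N` are exceptional.
-/

set_option autoImplicit false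

namespace Pool.Agent.Results.MP_d2d93c_nt.FewExceptions

/-- `(f, g)` is one of the pairs of the problem -/
def Pair (f g : ℕ) : Prop := 0 < g ∧ g < f ∧ Nat.Coprime f g ∧ Odd (f + g)

/-- `(x, y, z)` is a solution for the pair `(f, g)` -/
def Solution (f g x y z : ℕ) : Prop :=
  0 < x ∧ 0 < y ∧ 0 < z ∧ (f ^ 2 + g ^ 2) ^ x + (2 * f * g) ^ y = (f ^ 2 - g ^ 2) ^ z

/-- the counterexamples to the conjecture -/
def Exceptional : Set (ℕ × ℕ) :=
  {e | Pair e.1 e.2 ∧ ∃ x y z : ℕ, Solution e.1 e.2 x y z ∧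
    ¬ (e.1 = e.2 + 1 ∧ x = 1 ∧ y = 1 ∧ z = 2)}

theorem result : ∃ (C : ℝ) (K : ℕ), 0 < C ∧
    ∀ N : ℕ, 2 ≤ N → (({e ∈ Exceptional | e.1 ≤ N}.ncard : ℕ) : ℝ) ≤
      C * (N : ℝ) ^ ((2 : ℝ) / 3) * Real.log N ^ K := by
  obtain ⟨C, K, hC, -, -, h⟩ := Pool.Agent.W5h37.Miy.Final.main
  exact ⟨C, K, hC, h⟩

end Pool.Agent.Results.MP_d2d93c_nt.FewExceptions
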